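import Mathlib

set_option autoImplicit false
open Finset

namespace Pool.Agent.Results.MP_9e9a14_co.Triangle

/-- `w` is an edge `{1,2,3}`-weighting of `G` that properly colours the vertices by sums. -/
def Proper {V : Type} [Fintype V] [DecidableEq V] (G : SimpleGraph V) [DecidableRel G.Adj]
    (w : G.edgeSet → ℕ) : Prop :=
  (∀ e, w e = 1 ∨ w e = 2 ∨ w e = 3) ∧
    ∀ u v, G.Adj u v →
      ∑ e : G.edgeSet with u ∈ e.1, w e ≠ ∑ e : G.edgeSet with v ∈ e.1, w e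

def e0 : (⊤ : SimpleGraph (Fin 3)).edgeSet := ⟨s(1, 2), by decide⟩
def e1 : (⊤ : SimpleGraph (Fin 3)).edgeSet := ⟨s(0, 2), by decide⟩
def e2 : (⊤ : SimpleGraph (Fin 3)).edgeSet := ⟨s(0, 1), by decide⟩

lemma univ_eq : (Finset.univ : Finset (⊤ : SimpleGraph (Fin 3)).edgeSet) = {e0, e1, e2} := by
  decide

lemma cases_e (e : (⊤ : SimpleGraph (Fin 3)).edgeSet) : e = e0 ∨ e = e1 ∨ e = e2 := by
  have : e ∈ ({e0, e1, e2} : Finset _) := by rw [← univ_eq]; exact Finset.mem_univ _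
  simpa using this

lemma s0 (w : (⊤ : SimpleGraph (Fin 3)).edgeSet → ℕ) :
    ∑ e : (⊤ : SimpleGraph (Fin 3)).edgeSet with (0 : Fin 3) ∈ e.1, w e = w e1 + w e2 := by
  rw [show (Finset.univ.filter (fun e : (⊤ : SimpleGraph (Fin 3)).edgeSet => (0 : Fin 3) ∈ e.1))
    = {e1, e2} by decide, Finset.sum_pair (by decide)]
lemma s1 (w : (⊤ : SimpleGraph (Fin 3)).edgeSet → ℕ) :
    ∑ e : (⊤ : SimpleGraph (Fin 3)).edgeSet with (1 : Fin 3) ∈ e.1, w e = w e0 + w e2 := by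
  rw [show (Finset.univ.filter (fun e : (⊤ : SimpleGraph (Fin 3)).edgeSet => (1 : Fin 3) ∈ e.1))
    = {e0, e2} by decide, Finset.sum_pair (by decide)]
lemma s2 (w : (⊤ : SimpleGraph (Fin 3)).edgeSet → ℕ) :
    ∑ e : (⊤ : SimpleGraph (Fin 3)).edgeSet with (2 : Fin 3) ∈ e.1, w e = w e0 + w e1 := by
  rw [show (Finset.univ.filter (fun e : (⊤ : SimpleGraph (Fin 3)).edgeSet => (2 : Fin 3) ∈ e.1))
    = {e0, e1} by decide, Finset.sum_pair (by decide)]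

def iso (σ : Equiv.Perm (Fin 3)) : (⊤ : SimpleGraph (Fin 3)) ≃g (⊤ : SimpleGraph (Fin 3)) :=
  SimpleGraph.Iso.completeGraph σ

def ed : Fin 3 → (⊤ : SimpleGraph (Fin 3)).edgeSet := ![e0, e1, e2]

lemma map_ed : ∀ (σ : Equiv.Perm (Fin 3)) (i : Fin 3), (iso σ).mapEdgeSet (ed i) = ed (σ i) := by
  intro σ i
  apply Subtype.ext
  revert σ i
  decide

lemma dist (w : (⊤ : SimpleGraph (Fin 3)).edgeSet → ℕ) (h : Proper ⊤ w) :
    w e0 ≠ w e1 ∧ w e0 ≠ w e2 ∧ w e1 ≠ w e2 := by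
  have h01 := h.2 0 1 (by decide)
  have h02 := h.2 0 2 (by decide)
  have h12 := h.2 1 2 (by decide)
  rw [s0, s1] at h01
  rw [s0, s2] at h02
  rw [s1, s2] at h12
  omega

lemma key : ∀ a b : Fin 3 → Fin 4, (∀ i, a i ≠ 0) → (∀ i, b i ≠ 0) →
    (a 0 ≠ a 1 ∧ a 0 ≠ a 2 ∧ a 1 ≠ a 2) → (b 0 ≠ b 1 ∧ b 0 ≠ b 2 ∧ b 1 ≠ b 2) →
    ∃ σ : Equiv.Perm (Fin 3), ∀ i, b (σ i) = a i := by
  decide +kernel

theorem result : ∃ (n : ℕ) (G : SimpleGraph (Fin n)) (_ : DecidableRel G.Adj),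
    G.edgeSet.Nonempty ∧ (∃ w, Proper G w) ∧
      ∀ w w', Proper G w → Proper G w' →
        ∃ φ : G ≃g G, ∀ e : G.edgeSet, w' (φ.mapEdgeSet e) = w e := by
  refine ⟨3, ⊤, inferInstance, ⟨_, e0.2⟩, ⟨fun e => if e = e0 then 1 else if e = e1 then 2 else 3, ?_⟩, ?_⟩
  · unfold Proper; decide
  · intro w w' hw hw'
    have hb : ∀ (w : (⊤ : SimpleGraph (Fin 3)).edgeSet → ℕ), Proper ⊤ w → ∀ i, w (ed i) < 4 := by
      intro w h i
      rcases h.1 (ed i) with h | h | h <;> omega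
    have hn : ∀ (w : (⊤ : SimpleGraph (Fin 3)).edgeSet → ℕ), Proper ⊤ w → ∀ i, w (ed i) ≠ 0 := by
      intro w h i
      rcases h.1 (ed i) with h | h | h <;> omega
    obtain ⟨σ, hσ⟩ := key (fun i => ⟨w (ed i), hb w hw i⟩) (fun i => ⟨w' (ed i), hb w' hw' i⟩)
      (fun i h => hn w hw i (congrArg Fin.val h)) (fun i h => hn w' hw' i (congrArg Fin.val h))
      (by simpa [ed, Fin.ext_iff] using dist w hw) (by simpa [ed, Fin.ext_iff] using dist w' hw')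
    refine ⟨iso σ, fun e => ?_⟩
    have : ∃ i, e = ed i := by
      rcases cases_e e with h | h | h
      · exact ⟨0, h⟩
      · exact ⟨1, h⟩
      · exact ⟨2, h⟩
    obtain ⟨i, rfl⟩ := this
    rw [map_ed]
    exact congrArg Fin.val (hσ i)

end Pool.Agent.Results.MP_9e9a14_co.Triangle
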